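import Pool.Agent.Z864.Base

/-!
# Z701-BIL2A: weights and coincidences modulo 7, general family
-/

set_option autoImplicit false

namespace Pool.Agent.Z864

open Finset Matrix
open Pool.Agent.Z700 (V3 vec cp cp7 hh fac pr chi3 chv Ln S_PC)
open Pool.Agent.Z701
open Pool.Agent.Z994 (dot3 sign_of)

/-! ### modulo 3 -/

theorem unit3 {a b c n : ℤ} (hn : ¬ (3 : ℤ) ∣ n) (h : a * a + b * b + c * c = 3 * n) :
    ¬ a % 3 = 0 ∧ ¬ b % 3 = 0 ∧ ¬ c % 3 = 0 := by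
  have key : ∀ x : ℤ, (x % 3 = 0 ∧ x * x % 9 = 0) ∨ (¬ x % 3 = 0 ∧ x * x % 3 = 1) := by
    intro x
    rcases (by omega : x % 3 = 0 ∨ x % 3 = 1 ∨ x % 3 = 2) with h1 | h1 | h1
    · left
      obtain ⟨k, hk⟩ : ∃ k, x = 3 * k := ⟨x / 3, by omega⟩
      refine ⟨h1, ?_⟩
      rw [hk]
      have : 3 * k * (3 * k) = 9 * (k * k) := by ring
      omega
    · right
      obtain ⟨k, hk⟩ : ∃ k, x = 3 * k + 1 := ⟨x / 3, by omega⟩
      refine ⟨by omega, ?_⟩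
      rw [hk]
      have : (3 * k + 1) * (3 * k + 1) = 3 * (3 * (k * k) + 2 * k) + 1 := by ring
      omega
    · right
      obtain ⟨k, hk⟩ : ∃ k, x = 3 * k + 2 := ⟨x / 3, by omega⟩
      refine ⟨by omega, ?_⟩
      rw [hk]
      have : (3 * k + 2) * (3 * k + 2) = 3 * (3 * (k * k) + 4 * k + 1) + 1 := by ring
      omega
  have ha := key a
  have hb := key b
  have hc := key c
  omega

theorem wt_of {m1 m2 : ℕ} {b r : ℤ} (h1 : ¬ 3 ∣ m1)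
    (h12 : (3 : ℤ) ∣ b → m1 % 3 = m2 % 3)
    (h : (b % 3 = 1 ∧ r = -1) ∨ (b % 3 = 2 ∧ r = 1) ∨
      (b % 3 = 0 ∧ (b / 3 - r * m1) % 3 = 0 ∧ (r = 1 ∨ r = -1))) : wt m1 m2 b = r := by
  unfold wt
  rcases h with ⟨h, rfl⟩ | ⟨h, rfl⟩ | ⟨h, h', hr⟩
  · rw [if_neg (by omega)]
    unfold chi3
    rw [if_pos h]
  · rw [if_neg (by omega)]
    unfold chi3
    rw [if_neg (by omega), if_pos h]
    norm_num
  · have h3 := h12 (Int.dvd_of_emod_eq_zero h)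
    rw [if_pos h, if_pos h3]
    obtain ⟨c, hc⟩ : ∃ c, b / 3 = c := ⟨_, rfl⟩
    rw [hc] at h' ⊢
    obtain ⟨u, hu⟩ : ∃ u, c = r * m1 + 3 * u := ⟨(c - r * m1) / 3, by omega⟩
    have hm : (m1 : ℤ) % 3 = 1 ∨ (m1 : ℤ) % 3 = 2 := by omega
    obtain ⟨k, hk⟩ : ∃ k : ℤ, (m1 : ℤ) * m1 = 1 + 3 * k := by
      rcases hm with hm | hm
      · obtain ⟨k, hk⟩ : ∃ k, (m1 : ℤ) = 3 * k + 1 := ⟨(m1 : ℤ) / 3, by omega⟩
        exact ⟨3 * (k * k) + 2 * k, by rw [hk]; ring⟩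
      · obtain ⟨k, hk⟩ : ∃ k, (m1 : ℤ) = 3 * k + 2 := ⟨(m1 : ℤ) / 3, by omega⟩
        exact ⟨3 * (k * k) + 4 * k + 1, by rw [hk]; ring⟩
    have e : (m1 : ℤ) * c = r + 3 * (r * k + m1 * u) := by
      rw [hu]
      linear_combination r * hk
    rw [e]
    obtain ⟨z, hz⟩ : ∃ z, r * k + m1 * u = z := ⟨_, rfl⟩
    rw [hz]
    rcases hr with rfl | rfl
    · exact Pool.Agent.Z994.chi3_one rfl
    · exact Pool.Agent.Z994.chi3_neg rfl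

theorem weight {m1 m2 : ℕ} {b : ℤ} (h1 : ¬ 3 ∣ m1) (h2 : ¬ 3 ∣ m2)
    (h12 : (3 : ℤ) ∣ b → m1 % 3 = m2 % 3) {v w : V3}
    (hv : v ⬝ᵥ v = 3 * (m1 : ℤ)) (hw : w ⬝ᵥ w = 3 * (m2 : ℤ)) (hb : v ⬝ᵥ w = b) :
    chv v * chv w = wt m1 m2 b := by
  rw [dot3] at hv hw hb
  obtain ⟨a0, a1, a2⟩ := unit3 (by omega) hv
  obtain ⟨b0, b1, b2⟩ := unit3 (by omega) hw
  obtain ⟨s0, u0, hs0, e0, c0⟩ := sign_of a0
  obtain ⟨s1, u1, hs1, e1, c1⟩ := sign_of a1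
  obtain ⟨s2, u2, hs2, e2, c2⟩ := sign_of a2
  obtain ⟨t0, x0, ht0, f0, d0⟩ := sign_of b0
  obtain ⟨t1, x1, ht1, f1, d1⟩ := sign_of b1
  obtain ⟨t2, x2, ht2, f2, d2⟩ := sign_of b2
  unfold chv
  rw [c0, c1, c2, d0, d1, d2]
  rw [e0, e1, e2] at hv hb
  rw [f0, f1, f2] at hw hb
  have ss : ∀ s : ℤ, (s = 1 ∨ s = -1) → s * s = 1 := by
    rintro s (rfl | rfl) <;> norm_num
  have g1 : 3 * (1 + 2 * (s0 * u0 + s1 * u1 + s2 * u2) + 3 * (u0 * u0 + u1 * u1 + u2 * u2)) =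
      3 * (m1 : ℤ) := by
    rw [← hv]
    linear_combination -(ss s0 hs0) - (ss s1 hs1) - (ss s2 hs2)
  have g2 : 3 * (1 + 2 * (t0 * x0 + t1 * x1 + t2 * x2) + 3 * (x0 * x0 + x1 * x1 + x2 * x2)) =
      3 * (m2 : ℤ) := by
    rw [← hw]
    linear_combination -(ss t0 ht0) - (ss t1 ht1) - (ss t2 ht2)
  have g3 : b = (s0 * t0 + s1 * t1 + s2 * t2) +
      3 * ((s0 * x0 + s1 * x1 + s2 * x2) + (t0 * u0 + t1 * u1 + t2 * u2)) +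
      9 * (u0 * x0 + u1 * x1 + u2 * x2) := by
    rw [← hb]; ring
  obtain ⟨A, hA⟩ : ∃ A, A = u0 * x0 + u1 * x1 + u2 * x2 := ⟨_, rfl⟩
  obtain ⟨B, hB⟩ : ∃ B, B = u0 * u0 + u1 * u1 + u2 * u2 := ⟨_, rfl⟩
  obtain ⟨C, hC⟩ : ∃ C, C = x0 * x0 + x1 * x1 + x2 * x2 := ⟨_, rfl⟩
  rw [← hA] at g3
  rw [← hB] at g1
  rw [← hC] at g2
  have k1 : 1 + 2 * (s0 * u0 + s1 * u1 + s2 * u2) + 3 * B = m1 := by linarith
  have k2 : 1 + 2 * (t0 * x0 + t1 * x1 + t2 * x2) + 3 * C = m2 := by linarith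
  clear hv hw hb g1 g2 c0 c1 c2 d0 d1 d2 e0 e1 e2 f0 f1 f2 a0 a1 a2 b0 b1 b2 hA hB hC
  symm
  apply wt_of h1 h12
  have hr : s0 * s1 * s2 * (t0 * t1 * t2) = (s0 * t0) * (s1 * t1) * (s2 * t2) := by ring
  have hpm : ∀ s t : ℤ, (s = 1 ∨ s = -1) → (t = 1 ∨ t = -1) → (s * t = 1 ∨ s * t = -1) := by
    rintro s t (rfl | rfl) (rfl | rfl) <;> norm_num
  have p0 := hpm s0 t0 hs0 ht0
  have p1 := hpm s1 t1 hs1 ht1
  have p2 := hpm s2 t2 hs2 ht2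
  rw [hr]
  have hst : ∀ s t l : ℤ, (s = 1 ∨ s = -1) → s * t = l → t = l * s := by
    rintro s t l (rfl | rfl) h <;> linarith
  by_cases h3 : (3 : ℤ) ∣ b
  · have h4 := h12 h3
    obtain ⟨X, hX⟩ : ∃ X, X = (s0 * x0 + s1 * x1 + s2 * x2) + (t0 * u0 + t1 * u1 + t2 * u2) :=
      ⟨_, rfl⟩
    rw [← hX] at g3
    have hall : s1 * t1 = s0 * t0 ∧ s2 * t2 = s0 * t0 := by
      rcases p0 with p0 | p0 <;> rcases p1 with p1 | p1 <;> rcases p2 with p2 | p2 <;>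
        rw [p0, p1, p2] at g3 ⊢ <;> omega
    obtain ⟨q1, q2⟩ := hall
    obtain ⟨l, hl⟩ : ∃ l, s0 * t0 = l := ⟨_, rfl⟩
    rw [q1, q2, hl] at g3
    rw [q1, q2, hl]
    rw [hl] at q1 q2 p0
    have y0 := hst s0 t0 l hs0 hl
    have y1 := hst s1 t1 l hs1 q1
    have y2 := hst s2 t2 l hs2 q2
    have z0 := hst t0 s0 l ht0 (by rw [mul_comm]; exact hl)
    have z1 := hst t1 s1 l ht1 (by rw [mul_comm]; exact q1)
    have z2 := hst t2 s2 l ht2 (by rw [mul_comm]; exact q2)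
    have hX2 : X = l * (t0 * x0 + t1 * x1 + t2 * x2) + l * (s0 * u0 + s1 * u1 + s2 * u2) := by
      rw [hX]
      linear_combination x0 * z0 + x1 * z1 + x2 * z2 + u0 * y0 + u1 * y1 + u2 * y2
    obtain ⟨U, hU⟩ : ∃ U, s0 * u0 + s1 * u1 + s2 * u2 = U := ⟨_, rfl⟩
    obtain ⟨W, hW⟩ : ∃ W, t0 * x0 + t1 * x1 + t2 * x2 = W := ⟨_, rfl⟩
    rw [hU, hW] at hX2
    rw [hU] at k1
    rw [hW] at k2
    right; right
    rcases p0 with rfl | rfl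
    · refine ⟨by omega, by omega, Or.inl rfl⟩
    · refine ⟨by omega, by omega, Or.inr rfl⟩
  · obtain ⟨X, hX⟩ : ∃ X, X = (s0 * x0 + s1 * x1 + s2 * x2) + (t0 * u0 + t1 * u1 + t2 * u2) :=
      ⟨_, rfl⟩
    rw [← hX] at g3
    rcases p0 with p0 | p0 <;> rcases p1 with p1 | p1 <;> rcases p2 with p2 | p2 <;>
      rw [p0, p1, p2] at g3 ⊢ <;> omega

open Classical in
/-- BIL2A -/
theorem t_BIL2A : Pool.Agent.Z701.S_BIL2A := by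
  intro D1 D2 hOK b h3
  obtain ⟨g1, g2, hd, hne⟩ := hOK
  set N1 : ℤ := 3 * (pr D1 : ℤ) with hN1
  set N2 : ℤ := 3 * (pr D2 : ℤ) with hN2
  have hw : ∀ q ∈ (vec N1 ×ˢ vec N2).filter (fun q => q.1 ⬝ᵥ q.2 = b),
      chv q.1 * chv q.2 = wt (pr D1) (pr D2) b := by
    intro q hq
    rw [mem_filter, mem_product] at hq
    exact weight (pr_not3 D1 g1.1) (pr_not3 D2 g2.1) h3 (mem_vec hq.1.1) (mem_vec hq.1.2) hq.2
  unfold DD Pool.Agent.Z700.DD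
  by_cases hb : (b : ZMod 7) = -(be D1 * be D2)
  · rw [if_pos hb]
    have key := core (N1 := N1) (N2 := N2) (be_ne D1) (be_ne D2)
      (by rw [be_sq D1 g1, hN1]; push_cast; ring) (by rw [be_sq D2 g2, hN2]; push_cast; ring) hb
      (fun q => chv q.1 * chv q.2) (fun v w => by simp only [chv_neg]; ring)
    have k1 : ∑ q ∈ (vec N1 ×ˢ vec N2).filter (fun q => q.1 ⬝ᵥ q.2 = b), chv q.1 * chv q.2 =
        wt (pr D1) (pr D2) b * (cp N1 b N2 : ℤ) := by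
      rw [sum_congr rfl hw, sum_const, nsmul_eq_mul]
      unfold cp
      ring
    have k2 : ∑ q ∈ (vec N1 ×ˢ vec N2).filter (fun q => q.1 ⬝ᵥ q.2 = b ∧
        ∀ i, be D2 * (q.1 i : ZMod 7) = be D1 * (q.2 i : ZMod 7)), chv q.1 * chv q.2 =
        wt (pr D1) (pr D2) b * (cp7 N1 b N2 (be D1) (be D2) : ℤ) := by
      rw [sum_congr rfl (fun q hq => hw q (by
        rw [mem_filter] at hq ⊢
        exact ⟨hq.1, hq.2.1⟩)), sum_const, nsmul_eq_mul]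
      unfold cp7
      ring
    rw [k1, k2] at key
    rw [mul_add, ← key]
  · rw [if_neg hb]
    have key := core0 (N1 := N1) (N2 := N2) (be_ne D1) hb
    have : ∑ q ∈ (vec N1 ×ˢ vec N2).filter (fun q => q.1 ⬝ᵥ q.2 = b ∧
        ∃ n : Fin 3 → ZMod 7, n ≠ 0 ∧ Ln n (be D1) q.1 ∧ Ln n (be D2) q.2), chv q.1 * chv q.2 = 0 := by
      rw [key]
      rfl
    rw [this, mul_zero]

end Pool.Agent.Z864
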