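import Pool.Agent.Z864.Base

/-!
# Z701-BIL2B: evaluation of `cp + cp7`, general family
-/

set_option autoImplicit false

namespace Pool.Agent.Z864

open Finset Matrix
open Pool.Agent.Z700 (V3 vec cp cp7 hh fac pr chi3 chv Ln S_PC)
open Pool.Agent.Z701

theorem one_lt_pr (D : Finset ℕ) (h : ∀ p ∈ D, Sp p ∨ Nr p) (hne : D.Nonempty) : 1 < pr D := by
  obtain ⟨p, hp⟩ := hne
  have h1 : p ∣ pr D := Finset.dvd_prod_of_mem _ hp
  have h2 : 1 < p := (prime_of (h p hp)).one_lt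
  exact lt_of_lt_of_le h2 (Nat.le_of_dvd (pr_pos D h) h1)

theorem no_sq (D1 D2 : Finset ℕ) (h1 : Gd D1) (h2 : Gd D2)
    (hd : Disjoint D1 D2 ∨ D1 = D2) (hne : D1.Nonempty ∨ D2.Nonempty) (b : ℤ) (hb : b % 4 = 1)
    (hb7 : (b : ZMod 7) = -(be D1 * be D2)) : b ^ 2 ≠ 9 * (pr D1 : ℤ) * (pr D2 : ℤ) := by
  have := fact7
  intro hbb
  rcases hd with hd | hd
  · -- disjoint
    have h12 : ∀ p ∈ D1 ∪ D2, Sp p ∨ Nr p := by
      intro p hp
      rcases Finset.mem_union.1 hp with hp | hp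
      · exact h1.1 p hp
      · exact h2.1 p hp
    have hsq := pr_sq (D1 ∪ D2) h12
    have hlt : 1 < pr (D1 ∪ D2) := one_lt_pr _ h12 (by
      rcases hne with hne | hne
      · exact hne.mono Finset.subset_union_left
      · exact hne.mono Finset.subset_union_right)
    have h3 : (b.natAbs) ^ 2 = 3 ^ 2 * pr (D1 ∪ D2) := by
      have : ((b.natAbs ^ 2 : ℕ) : ℤ) = ((3 ^ 2 * pr (D1 ∪ D2) : ℕ) : ℤ) := by
        rw [← Pool.Agent.Z700.BIL2B.pr_union D1 D2 hd]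
        push_cast
        rw [sq_abs, hbb]
        ring
      exact_mod_cast this
    have h4 : 3 ∣ b.natAbs := by
      have : 3 ∣ b.natAbs ^ 2 := by rw [h3]; exact Dvd.dvd.mul_right (by norm_num) _
      exact Nat.prime_three.dvd_of_dvd_pow this
    obtain ⟨c, hc⟩ := h4
    rw [hc, mul_pow] at h3
    have h5 : c ^ 2 = pr (D1 ∪ D2) := Nat.eq_of_mul_eq_mul_left (by norm_num) h3
    rw [← h5] at hsq hlt
    have h6 : IsUnit c := hsq c (by rw [sq])
    rw [Nat.isUnit_iff] at h6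
    rw [h6] at hlt
    norm_num at hlt
  · subst hd
    have h3 : b ^ 2 = (3 * (pr D1 : ℤ)) ^ 2 := by rw [hbb]; ring
    have h4 := pr_mod8 D1 h1
    rcases sq_eq_sq_iff_eq_or_eq_neg.1 h3 with h5 | h5
    · omega
    · have h6 : (b : ZMod 7) = be D1 ^ 2 := by
        rw [h5, be_sq D1 h1]
        push_cast
        ring
      rw [h6] at hb7
      have h7 : (2 : ZMod 7) * be D1 ^ 2 = 0 := by
        have : be D1 ^ 2 + be D1 * be D1 = 0 := by
          rw [hb7]; ring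
        linear_combination this
      rcases mul_eq_zero.1 h7 with h8 | h8
      · exact Pool.Agent.Z700.BIL2B.two_ne h8
      · exact be_ne D1 (pow_eq_zero_iff two_ne_zero |>.1 h8)

/-- BIL2B -/
theorem t_BIL2B (h : Pool.Agent.Z700.S_PC) : Pool.Agent.Z701.S_BIL2B := by
  intro D1 D2 hOK b hb4 hb7
  obtain ⟨g1, g2, hd, hne⟩ := hOK
  have m1 := pr_mod8 D1 g1
  have m2 := pr_mod8 D2 g2
  by_cases hD : 0 < dis D1 D2 b
  · rw [if_pos hD]
    have hDD : (dis D1 D2 b : ℤ) = ((3 * pr D1 : ℕ) : ℤ) * ((3 * pr D2 : ℕ) : ℤ) - b ^ 2 := by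
      unfold dis at hD ⊢
      rw [Int.toNat_of_nonneg (by omega)]
      push_cast
      ring
    have hbo : Odd b := by
      rw [Int.odd_iff]
      omega
    have key := Pool.Agent.Z700.BIL2B.main_pos h (3 * pr D1) (3 * pr D2) (dis D1 D2 b) b (be D1)
      (be D2) (sq3pr D1 g1.1)
      (by omega) (by omega) hbo hD hDD (be_sq D1 g1) (be_sq D2 g2) (be_ne D1) hb7
    unfold loc
    rw [← key]
    push_cast
    rfl
  · rw [if_neg hD]
    have hle : 9 * (pr D1 : ℤ) * (pr D2 : ℤ) ≤ b ^ 2 := by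
      unfold dis at hD
      omega
    have hlt : 9 * (pr D1 : ℤ) * (pr D2 : ℤ) < b ^ 2 :=
      lt_of_le_of_ne hle (no_sq D1 D2 g1 g2 hd hne b hb4 hb7).symm
    have h0 : cp (3 * (pr D1 : ℤ)) b (3 * (pr D2 : ℤ)) = 0 := by
      apply Pool.Agent.Z700.BIL2B.cp_zero
      linarith
    have h7 : cp7 (3 * (pr D1 : ℤ)) b (3 * (pr D2 : ℤ)) (be D1) (be D2) = 0 := by
      have := Pool.Agent.Z700.BIL2B.cp7_le (3 * (pr D1 : ℤ)) b (3 * (pr D2 : ℤ)) (be D1) (be D2)
      omega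
    rw [h0, h7]
    rfl

end Pool.Agent.Z864
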