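import Pool.Agent.Z864.Bil2a

/-!
# Z701-CAN: cancellation for `3 ∣ b`, `pr D1`, `pr D2` different modulo `3`
-/

set_option autoImplicit false

namespace Pool.Agent.Z864

open Finset
open scoped Matrix
open Pool.Agent.Z700 (V3 vec cp cp7 hh fac pr chi3 chv Ln S_PC)
open Pool.Agent.Z701
open Pool.Agent.Z994 (dot3 sign_of)

/-! ### the sign -/

theorem coord {s t σ x y u z : ℤ} (hs : s = 1 ∨ s = -1) (ht : t = 1 ∨ t = -1)
    (hσ : σ = 1 ∨ σ = -1) (hx : x = s + 3 * u) (hy : y = t + 3 * z) :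
    (3 : ℤ) ∣ x - σ * y ↔ s * t = σ := by
  rcases hs with rfl | rfl <;> rcases ht with rfl | rfl <;> rcases hσ with rfl | rfl <;>
    constructor <;> intro h <;> omega

theorem sign3 {m1 m2 b : ℤ} (h1 : ¬ (3 : ℤ) ∣ m1) (h2 : ¬ (3 : ℤ) ∣ m2) (hb3 : (3 : ℤ) ∣ b) {v w : V3}
    (hv : v ⬝ᵥ v = 3 * m1) (hw : w ⬝ᵥ w = 3 * m2) (hb : v ⬝ᵥ w = b) :
    (chv v * chv w = 1 ∨ chv v * chv w = -1) ∧ ∀ σ : ℤ, (σ = 1 ∨ σ = -1) →
      (chv v * chv w = σ ↔ ∀ i, (3 : ℤ) ∣ v i - σ * w i) := by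
  rw [dot3] at hv hw hb
  obtain ⟨a0, a1, a2⟩ := unit3 h1 hv
  obtain ⟨b0, b1, b2⟩ := unit3 h2 hw
  obtain ⟨s0, u0, hs0, e0, c0⟩ := sign_of a0
  obtain ⟨s1, u1, hs1, e1, c1⟩ := sign_of a1
  obtain ⟨s2, u2, hs2, e2, c2⟩ := sign_of a2
  obtain ⟨t0, x0, ht0, f0, d0⟩ := sign_of b0
  obtain ⟨t1, x1, ht1, f1, d1⟩ := sign_of b1
  obtain ⟨t2, x2, ht2, f2, d2⟩ := sign_of b2
  have g3 : b = (s0 * t0 + s1 * t1 + s2 * t2) +
      3 * ((s0 * x0 + s1 * x1 + s2 * x2) + (t0 * u0 + t1 * u1 + t2 * u2) +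
      3 * (u0 * x0 + u1 * x1 + u2 * x2)) := by
    rw [← hb, e0, e1, e2, f0, f1, f2]; ring
  obtain ⟨X, hX⟩ : ∃ X, (s0 * x0 + s1 * x1 + s2 * x2) + (t0 * u0 + t1 * u1 + t2 * u2) +
      3 * (u0 * x0 + u1 * x1 + u2 * x2) = X := ⟨_, rfl⟩
  rw [hX] at g3
  have hr : chv v * chv w = (s0 * t0) * (s1 * t1) * (s2 * t2) := by
    unfold chv
    rw [c0, c1, c2, d0, d1, d2]
    ring
  have hpm : ∀ s t : ℤ, (s = 1 ∨ s = -1) → (t = 1 ∨ t = -1) → (s * t = 1 ∨ s * t = -1) := by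
    rintro s t (rfl | rfl) (rfl | rfl) <;> norm_num
  have p0 := hpm s0 t0 hs0 ht0
  have p1 := hpm s1 t1 hs1 ht1
  have p2 := hpm s2 t2 hs2 ht2
  have hall : s1 * t1 = s0 * t0 ∧ s2 * t2 = s0 * t0 := by
    rcases p0 with p0 | p0 <;> rcases p1 with p1 | p1 <;> rcases p2 with p2 | p2 <;>
      rw [p0, p1, p2] at g3 ⊢ <;> omega
  obtain ⟨q1, q2⟩ := hall
  have hr2 : chv v * chv w = s0 * t0 := by
    rw [hr, q1, q2]
    rcases p0 with p0 | p0 <;> rw [p0] <;> norm_num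
  refine ⟨by rw [hr2]; exact p0, fun σ hσ => ?_⟩
  have r0 := coord hs0 ht0 hσ e0 f0
  have r1 := coord hs1 ht1 hσ e1 f1
  have r2 := coord hs2 ht2 hσ e2 f2
  rw [q1] at r1
  rw [q2] at r2
  rw [hr2]
  constructor
  · intro h i
    fin_cases i
    · exact r0.2 h
    · exact r1.2 h
    · exact r2.2 h
  · intro h
    exact r0.1 (h 0)

/-! ### the bijection -/

/-- the map -/
def A3 (s : ℤ) (w v : V3) : V3 := fun i => (4 * v i - s * w i) / 3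

/-- the inverse map -/
def B3 (s : ℤ) (w' v : V3) : V3 := fun i => s * (4 * v i - 3 * w' i)

theorem card3 (n1 b n2 s b1 n3 : ℤ) (hs : s * s = 1) (h1 : 3 * b1 = 4 * n1 - s * b)
    (h2 : 9 * n3 = 16 * n1 - 8 * s * b + n2) (Q Q' : V3 × V3 → Prop) [DecidablePred Q]
    [DecidablePred Q'] (hQ : ∀ v w w' : V3, (∀ i, 3 * w' i = 4 * v i - s * w i) →
      (Q (v, w) ↔ Q' (v, w'))) :
    ((vec n1 ×ˢ vec n2).filter fun q => q.1 ⬝ᵥ q.2 = b ∧ (∀ i, (3 : ℤ) ∣ q.1 i - s * q.2 i) ∧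
      Q q).card = ((vec n1 ×ˢ vec n3).filter fun q => q.1 ⬝ᵥ q.2 = b1 ∧ Q' q).card := by
  have mv := Pool.Agent.Z700.BIL2B.mem_vec
  refine Finset.card_nbij' (fun q => (q.1, A3 s q.2 q.1)) (fun q => (q.1, B3 s q.2 q.1)) ?_ ?_ ?_ ?_
  · rintro ⟨v, w⟩ h
    simp only [Finset.coe_filter, Set.mem_ofPred_eq, Finset.mem_product, mv] at h ⊢
    obtain ⟨⟨k1, k2⟩, k3, k4, k5⟩ := h
    obtain ⟨w', hw'⟩ : ∃ w' : V3, A3 s w v = w' := ⟨_, rfl⟩
    have hwi : ∀ i, 3 * w' i = 4 * v i - s * w i := by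
      intro i
      rw [← hw']
      show 3 * ((4 * v i - s * w i) / 3) = 4 * v i - s * w i
      have := k4 i
      omega
    rw [hw']
    refine ⟨⟨k1, ?_⟩, ?_, (hQ v w w' hwi).1 k5⟩
    · rw [dot3] at k1 k2 k3 ⊢
      have : 9 * (w' 0 * w' 0 + w' 1 * w' 1 + w' 2 * w' 2) = 9 * n3 := by
        rw [h2, ← k1, ← k2, ← k3]
        linear_combination (3 * w' 0 + 4 * v 0 - s * w 0) * hwi 0 +
          (3 * w' 1 + 4 * v 1 - s * w 1) * hwi 1 + (3 * w' 2 + 4 * v 2 - s * w 2) * hwi 2 +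
          (w 0 * w 0 + w 1 * w 1 + w 2 * w 2) * hs
      linarith
    · rw [dot3] at k1 k3 ⊢
      have : 3 * (v 0 * w' 0 + v 1 * w' 1 + v 2 * w' 2) = 3 * b1 := by
        rw [h1, ← k1, ← k3]
        linear_combination v 0 * hwi 0 + v 1 * hwi 1 + v 2 * hwi 2
      linarith
  · rintro ⟨v, w'⟩ h
    simp only [Finset.coe_filter, Set.mem_ofPred_eq, Finset.mem_product, mv] at h ⊢
    obtain ⟨⟨k1, k2⟩, k3, k5⟩ := h
    obtain ⟨w, hw⟩ : ∃ w : V3, B3 s w' v = w := ⟨_, rfl⟩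
    have hwi : ∀ i, w i = s * (4 * v i - 3 * w' i) := by
      intro i
      rw [← hw]
      rfl
    have hwi2 : ∀ i, 3 * w' i = 4 * v i - s * w i := by
      intro i
      rw [hwi i]
      linear_combination (4 * v i - 3 * w' i) * hs
    rw [hw]
    have hb : b = s * (4 * n1 - 3 * b1) := by
      rw [h1]
      linear_combination -b * hs
    refine ⟨⟨k1, ?_⟩, ?_, ?_, (hQ v w w' hwi2).2 k5⟩
    · rw [dot3] at k1 k2 k3 ⊢
      have hn2 : n2 = 9 * n3 - 16 * n1 + 8 * s * b := by linarith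
      rw [hn2, hb, ← k1, ← k2, ← k3]
      rw [hwi 0, hwi 1, hwi 2]
      linear_combination ((4 * v 0 - 3 * w' 0) ^ 2 + (4 * v 1 - 3 * w' 1) ^ 2 +
        (4 * v 2 - 3 * w' 2) ^ 2 - 8 * (4 * (v 0 * v 0 + v 1 * v 1 + v 2 * v 2) -
        3 * (v 0 * w' 0 + v 1 * w' 1 + v 2 * w' 2))) * hs
    · rw [dot3] at k1 k3 ⊢
      rw [hb, ← k1, ← k3, hwi 0, hwi 1, hwi 2]
      ring
    · intro i
      exact ⟨w' i - v i, by linear_combination -(hwi2 i)⟩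
  · rintro ⟨v, w⟩ h
    simp only [Finset.coe_filter, Set.mem_ofPred_eq, Finset.mem_product, mv] at h
    obtain ⟨⟨k1, k2⟩, k3, k4, k5⟩ := h
    have hT : B3 s (A3 s w v) v = w := by
      funext i
      show s * (4 * v i - 3 * ((4 * v i - s * w i) / 3)) = w i
      have hw : 3 * ((4 * v i - s * w i) / 3) = 4 * v i - s * w i := by
        have := k4 i
        omega
      rw [hw]
      linear_combination (w i) * hs
    show (v, B3 s (A3 s w v) v) = (v, w)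
    rw [hT]
  · rintro ⟨v, w'⟩ h
    have hT : A3 s (B3 s w' v) v = w' := by
      funext i
      show (4 * v i - s * (s * (4 * v i - 3 * w' i))) / 3 = w' i
      have : 4 * v i - s * (s * (4 * v i - 3 * w' i)) = 3 * w' i := by
        linear_combination -(4 * v i - 3 * w' i) * hs
      rw [this]
      exact Int.mul_ediv_cancel_left _ (by norm_num)
    show (v, A3 s (B3 s w' v) v) = (v, w')
    rw [hT]

/-! ### the counts depend only on the determinant -/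

/-- the number of pairs as a function of the determinant -/
noncomputable def GG (n1 : ℕ) (D : ℤ) : ℤ :=
  if 0 < D then (if Odd (D.toNat.factorization 2) then
    24 * ∏ l ∈ D.toNat.primeFactors.erase 2, fac n1 D.toNat l else 0) else 0

theorem cp_gg (h : S_PC) {n1 : ℕ} {b1 n3 : ℤ} (hs : Squarefree n1) (h1 : n1 % 8 = 3)
    (h3 : n3 % 8 = 3) (hb : Odd b1) (hD : (n1 : ℤ) * n3 - b1 ^ 2 ≠ 0) :
    (cp n1 b1 n3 : ℤ) = GG n1 ((n1 : ℤ) * n3 - b1 ^ 2) := by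
  unfold GG
  by_cases h0 : 0 < (n1 : ℤ) * n3 - b1 ^ 2
  · rw [if_pos h0]
    have hn1 : (0 : ℤ) < n1 := by omega
    have hn3 : 0 < n3 := by
      have : 0 < (n1 : ℤ) * n3 := by nlinarith [sq_nonneg b1]
      exact (mul_pos_iff_of_pos_left hn1).1 this
    obtain ⟨m, hm⟩ := Int.eq_ofNat_of_zero_le hn3.le
    subst hm
    exact h n1 m b1 _ hs h1 (by omega) hb (by omega) (Int.toNat_of_nonneg h0.le)
  · rw [if_neg h0]
    rw [Pool.Agent.Z700.BIL2B.cp_zero]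
    · rfl
    · omega

theorem cp7_gg (h : S_PC) {n1 : ℕ} {b1 n3 : ℤ} (hs : Squarefree n1) (h1 : n1 % 8 = 3)
    (h3 : n3 % 8 = 3) (hb : Odd b1) (hD : (n1 : ℤ) * n3 - b1 ^ 2 ≠ 0) (h7 : ¬ 7 ∣ n1) (c : ZMod 7)
    (hc : (b1 : ZMod 7) = c * n1) :
    (cp7 n1 b1 n3 1 c : ℤ) = if (49 : ℤ) ∣ (n1 : ℤ) * n3 - b1 ^ 2 then
      GG n1 (((n1 : ℤ) * n3 - b1 ^ 2) / 49) else 0 := by
  have := fact7
  set k : ℤ := 8 * (c.val : ℤ) with hkdef
  have hk : (k : ZMod 7) * 1 = c := by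
    rw [hkdef]
    push_cast
    rw [ZMod.natCast_val, ZMod.cast_id', id, Pool.Agent.Z700.BIL2B.eight_eq, one_mul, mul_one]
  split_ifs with h49
  · obtain ⟨D', hD'⟩ := h49
    have hd7 : (7 : ℤ) ∣ b1 - k * n1 := by
      rw [Pool.Agent.Z700.BIL2B.dvd7]
      push_cast
      rw [mul_one] at hk
      rw [hk, hc]
      ring
    obtain ⟨b', hb'⟩ := hd7
    have hd49 : (49 : ℤ) ∣ n3 - 2 * k * b1 + k ^ 2 * n1 := by
      have h3 : (49 : ℤ) ∣ n1 * (n3 - 2 * k * b1 + k ^ 2 * n1) := by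
        have : (n1 : ℤ) * (n3 - 2 * k * b1 + k ^ 2 * n1) =
            (n1 * n3 - b1 ^ 2) + (b1 - k * n1) ^ 2 := by ring
        rw [this, hb', hD']
        exact ⟨D' + b' ^ 2, by ring⟩
      have h4 : IsCoprime (49 : ℤ) (n1 : ℤ) := by
        have h5 : Nat.Coprime 7 n1 := (Nat.Prime.coprime_iff_not_dvd (by norm_num)).2 h7
        have h6 : Nat.Coprime (7 ^ 2) n1 := Nat.Coprime.pow_left 2 h5
        have h7 := Nat.isCoprime_iff_coprime.2 h6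
        exact_mod_cast h7
      exact h4.dvd_of_dvd_mul_left h3
    obtain ⟨n2', hn2'⟩ := hd49
    have hDD' : (n1 : ℤ) * n2' - b' ^ 2 = D' := by
      have h3 : (49 : ℤ) * D' = 49 * (n1 * n2' - b' ^ 2) := by
        rw [← hD']
        have e2 : (49 : ℤ) * (n1 * n2' - b' ^ 2) = n1 * (49 * n2') - (7 * b') ^ 2 := by ring
        rw [e2, ← hn2', ← hb']
        ring
      linarith
    have hbodd : Odd b' := by
      have e : 7 * b' = b1 - k * n1 := hb'.symm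
      rw [hkdef] at e
      obtain ⟨c', hc'⟩ := hb
      rw [Int.odd_iff]
      have : 7 * b' = 2 * c' + 1 - 2 * (4 * (c.val : ℤ) * n1) := by
        rw [e, hc']
        ring
      omega
    have hm8 : n2' % 8 = 3 := by
      have e1 : (49 : ℤ) * n2' = n3 + 8 * (8 * (c.val : ℤ) ^ 2 * n1 -
          2 * (c.val : ℤ) * b1) := by
        rw [← hn2', hkdef]
        ring
      omega
    have e7 := Pool.Agent.Z700.BIL2B.cp7_eq n1 b1 n3 1 c one_ne_zero k b' n2' hk hb'.symm hn2'.symm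
    have hdiv : ((n1 : ℤ) * n3 - b1 ^ 2) / 49 = D' := by
      rw [hD']
      exact Int.mul_ediv_cancel_left _ (by norm_num)
    rw [e7, hdiv, ← hDD']
    apply cp_gg h hs h1 hm8 hbodd
    rw [hDD']
    rintro rfl
    apply hD
    rw [hD']
    norm_num
  · rw [Pool.Agent.Z700.BIL2B.cp7_zero n1 b1 n3 1 c one_ne_zero k hk h49]
    rfl

/-! ### the sets -/

/-- the two counts are the same for both signs -/
theorem counts (h : S_PC) (D1 D2 : Finset ℕ) (g1 : Gd D1) (g2 : Gd D2) (b : ℤ) (hb4 : b % 4 = 1)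
    (hb9 : (9 : ℤ) ∣ b) (h12 : (3 : ℤ) ∣ (pr D1 : ℤ) + pr D2) (hb7 : (b : ZMod 7) = -(be D1 * be D2))
    (s : ℤ) (hs : s = 1 ∨ s = -1) :
    ((((vec (3 * (pr D1 : ℤ)) ×ˢ vec (3 * (pr D2 : ℤ))).filter fun q => q.1 ⬝ᵥ q.2 = b ∧
      (∀ i, (3 : ℤ) ∣ q.1 i - s * q.2 i) ∧ True).card : ℕ) : ℤ) =
        GG (3 * pr D1) ((pr D1 : ℤ) * pr D2 - (b / 3) ^ 2) ∧
    ((((vec (3 * (pr D1 : ℤ)) ×ˢ vec (3 * (pr D2 : ℤ))).filter fun q => q.1 ⬝ᵥ q.2 = b ∧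
      (∀ i, (3 : ℤ) ∣ q.1 i - s * q.2 i) ∧
      ∀ i, be D2 * (q.1 i : ZMod 7) = be D1 * (q.2 i : ZMod 7)).card : ℕ) : ℤ) =
        if (49 : ℤ) ∣ (pr D1 : ℤ) * pr D2 - (b / 3) ^ 2 then
          GG (3 * pr D1) (((pr D1 : ℤ) * pr D2 - (b / 3) ^ 2) / 49) else 0 := by
  have := fact7
  have hss : s * s = 1 := by rcases hs with rfl | rfl <;> norm_num
  have m1 := pr_mod8 D1 g1
  have m2 := pr_mod8 D2 g2
  obtain ⟨c, hc⟩ := hb9
  subst hc
  have hdiv : (9 * c) / 3 = 3 * c := by omega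
  rw [hdiv]
  obtain ⟨t, ht⟩ : ∃ t, 16 * (pr D1 : ℤ) + pr D2 = 3 * t :=
    ⟨(16 * (pr D1 : ℤ) + pr D2) / 3, by omega⟩
  set b1 : ℤ := 4 * pr D1 - 3 * s * c with hb1
  set n3 : ℤ := t - 8 * s * c with hn3
  have e1 : 3 * b1 = 4 * (3 * (pr D1 : ℤ)) - s * (9 * c) := by rw [hb1]; ring
  have e2 : 9 * n3 = 16 * (3 * (pr D1 : ℤ)) - 8 * s * (9 * c) + 3 * (pr D2 : ℤ) := by
    rw [hn3]
    linear_combination (-3) * ht
  have hDet : ((3 * pr D1 : ℕ) : ℤ) * n3 - b1 ^ 2 = (pr D1 : ℤ) * pr D2 - (3 * c) ^ 2 := by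
    have : 9 * (((3 * pr D1 : ℕ) : ℤ) * n3 - b1 ^ 2) = 9 * ((pr D1 : ℤ) * pr D2 - (3 * c) ^ 2) := by
      have e3 : 9 * (((3 * pr D1 : ℕ) : ℤ) * n3 - b1 ^ 2) =
          3 * (pr D1 : ℤ) * (9 * n3) - (3 * b1) ^ 2 := by push_cast; ring
      rw [e3, e1, e2]
      linear_combination (-81 * c ^ 2) * hss
    linarith
  have hn3m : n3 % 8 = 3 := by
    rw [hn3]
    have : 8 * s * c = 8 * (s * c) := by ring
    rw [this]
    omega
  have hodd : Odd b1 := by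
    have hco : c % 2 = 1 := by omega
    rw [Int.odd_iff, hb1]
    rcases hs with rfl | rfl <;> omega
  have hne : ((3 * pr D1 : ℕ) : ℤ) * n3 - b1 ^ 2 ≠ 0 := by
    rw [hDet]
    intro h0
    have h3 : (3 : ℤ) ∣ (pr D1 : ℤ) * pr D2 := ⟨3 * c ^ 2, by linarith⟩
    rcases Int.prime_three.dvd_or_dvd h3 with h4 | h4
    · exact pr_not3 D1 g1.1 (by exact_mod_cast h4)
    · exact pr_not3 D2 g2.1 (by exact_mod_cast h4)
  have hmod : (3 * pr D1) % 8 = 3 := by omega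
  constructor
  · rw [card3 (3 * (pr D1 : ℤ)) (9 * c) (3 * (pr D2 : ℤ)) s b1 n3 hss e1 e2 (fun _ => True)
      (fun _ => True) (fun _ _ _ _ => Iff.rfl)]
    have e4 : ((vec (3 * (pr D1 : ℤ)) ×ˢ vec n3).filter fun q => q.1 ⬝ᵥ q.2 = b1 ∧ True).card =
        cp ((3 * pr D1 : ℕ) : ℤ) b1 n3 := by
      unfold cp
      push_cast
      simp only [and_true]
    rw [e4, cp_gg h (sq3pr D1 g1.1) hmod hn3m hodd hne, hDet]
  · -- the multiplier
    have hβ := be_ne D1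
    obtain ⟨κ, hκ⟩ : ∃ κ : ZMod 7, 3 * κ * be D1 = 4 * be D1 - s * be D2 := by
      refine ⟨(4 * be D1 - s * be D2) / (3 * be D1), ?_⟩
      have h3 : (3 : ZMod 7) ≠ 0 := Pool.Agent.Z700.BIL2B.three_ne
      field_simp
    have hsK : (s : ZMod 7) * s = 1 := by exact_mod_cast congrArg (Int.cast : ℤ → ZMod 7) hss
    have hs0 : (s : ZMod 7) ≠ 0 := by
      intro h0
      rw [h0, mul_zero] at hsK
      exact zero_ne_one hsK
    rw [card3 (3 * (pr D1 : ℤ)) (9 * c) (3 * (pr D2 : ℤ)) s b1 n3 hss e1 e2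
      (fun q => ∀ i, be D2 * (q.1 i : ZMod 7) = be D1 * (q.2 i : ZMod 7))
      (fun q => ∀ i, κ * (q.1 i : ZMod 7) = 1 * (q.2 i : ZMod 7)) (fun v w w' hw => by
        refine forall_congr' fun i => ?_
        have e5 : (3 : ZMod 7) * (w' i : ZMod 7) = 4 * v i - s * w i := by
          exact_mod_cast congrArg (Int.cast : ℤ → ZMod 7) (hw i)
        simp only
        have e6 : 3 * be D1 * (κ * (v i : ZMod 7) - 1 * (w' i : ZMod 7)) =
            (-(s : ZMod 7)) * (be D2 * (v i : ZMod 7) - be D1 * (w i : ZMod 7)) := by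
          linear_combination (v i : ZMod 7) * hκ - be D1 * e5
        have h3b : (3 : ZMod 7) * be D1 ≠ 0 := mul_ne_zero Pool.Agent.Z700.BIL2B.three_ne hβ
        constructor
        · intro h5
          rw [sub_eq_zero.2 h5, mul_zero] at e6
          exact sub_eq_zero.1 ((mul_eq_zero.1 e6).resolve_left h3b)
        · intro h5
          rw [sub_eq_zero.2 h5, mul_zero] at e6
          exact sub_eq_zero.1 ((mul_eq_zero.1 e6.symm).resolve_left (neg_ne_zero.2 hs0)))]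
    have e4 : ((vec (3 * (pr D1 : ℤ)) ×ˢ vec n3).filter fun q => q.1 ⬝ᵥ q.2 = b1 ∧
        ∀ i, κ * (q.1 i : ZMod 7) = 1 * (q.2 i : ZMod 7)).card =
        cp7 ((3 * pr D1 : ℕ) : ℤ) b1 n3 1 κ := by
      unfold cp7
      push_cast
      rfl
    rw [e4, cp7_gg h (sq3pr D1 g1.1) hmod hn3m hodd hne (n_not7 D1 g1) κ ?_, hDet]
    -- the congruence
    have h3 : (3 : ZMod 7) ≠ 0 := Pool.Agent.Z700.BIL2B.three_ne
    apply mul_left_cancel₀ h3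
    have e8 : (3 : ZMod 7) * (b1 : ZMod 7) = 4 * ((3 * pr D1 : ℕ) : ZMod 7) -
        s * ((9 * c : ℤ) : ZMod 7) := by
      have := congrArg (Int.cast : ℤ → ZMod 7) e1
      push_cast at this ⊢
      linear_combination this
    have hn := be_sq D1 g1
    have hn' : ((3 * pr D1 : ℕ) : ZMod 7) = -be D1 ^ 2 := by rw [hn]; ring
    rw [e8, hb7, hn']
    linear_combination (be D1) * hκ

open Classical in
/-- the sum of the signs -/
theorem sum_sign (A : Finset (V3 × V3)) (f : V3 × V3 → ℤ) (hf : ∀ q ∈ A, f q = 1 ∨ f q = -1) :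
    ∑ q ∈ A, f q = ((A.filter fun q => f q = 1).card : ℤ) - ((A.filter fun q => f q = -1).card : ℤ) := by
  rw [card_filter, card_filter]
  push_cast
  rw [← sum_sub_distrib]
  refine sum_congr rfl fun q hq => ?_
  rcases hf q hq with h | h <;> rw [h] <;> norm_num

open Classical in
/-- CAN -/
theorem t_CAN (h : Pool.Agent.Z700.S_PC) : Pool.Agent.Z701.S_CAN := by
  intro D1 D2 hOK b hb4 hb3 h12
  obtain ⟨g1, g2, hd, hne⟩ := hOK
  have p1 := pr_not3 D1 g1.1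
  have p2 := pr_not3 D2 g2.1
  have h12' : (3 : ℤ) ∣ (pr D1 : ℤ) + pr D2 := by omega
  unfold DD Pool.Agent.Z700.DD
  by_cases hb : (b : ZMod 7) = -(be D1 * be D2)
  swap
  · have key := core0 (N1 := 3 * (pr D1 : ℤ)) (N2 := 3 * (pr D2 : ℤ)) (be_ne D1) hb
    have : ∑ q ∈ (vec (3 * (pr D1 : ℤ)) ×ˢ vec (3 * (pr D2 : ℤ))).filter (fun q => q.1 ⬝ᵥ q.2 = b ∧
        ∃ n : Fin 3 → ZMod 7, n ≠ 0 ∧ Ln n (be D1) q.1 ∧ Ln n (be D2) q.2), chv q.1 * chv q.2 = 0 := by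
      rw [key]
      rfl
    exact this
  have hsg : ∀ q ∈ (vec (3 * (pr D1 : ℤ)) ×ˢ vec (3 * (pr D2 : ℤ))).filter
      (fun q => q.1 ⬝ᵥ q.2 = b), (chv q.1 * chv q.2 = 1 ∨ chv q.1 * chv q.2 = -1) ∧
      ∀ σ : ℤ, (σ = 1 ∨ σ = -1) →
      (chv q.1 * chv q.2 = σ ↔ ∀ i, (3 : ℤ) ∣ q.1 i - σ * q.2 i) := by
    intro q hq
    rw [mem_filter, mem_product] at hq
    exact sign3 (by omega) (by omega) hb3 (mem_vec hq.1.1) (mem_vec hq.1.2) hq.2
  have key := core (N1 := 3 * (pr D1 : ℤ)) (N2 := 3 * (pr D2 : ℤ)) (be_ne D1) (be_ne D2)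
    (by rw [be_sq D1 g1]; push_cast; ring) (by rw [be_sq D2 g2]; push_cast; ring) hb
    (fun q => chv q.1 * chv q.2) (fun v w => by simp only [chv_neg]; ring)
  have hn9 : ∀ q ∈ (vec (3 * (pr D1 : ℤ)) ×ˢ vec (3 * (pr D2 : ℤ))).filter
      (fun q => q.1 ⬝ᵥ q.2 = b), (9 : ℤ) ∣ b := by
    intro q hq
    obtain ⟨q1, q2⟩ := hsg q hq
    rw [mem_filter, mem_product] at hq
    obtain ⟨σ, hσ, hq3⟩ : ∃ σ : ℤ, (σ = 1 ∨ σ = -1) ∧ ∀ i, (3 : ℤ) ∣ q.1 i - σ * q.2 i := by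
      rcases q1 with q1 | q1
      · exact ⟨1, Or.inl rfl, (q2 1 (Or.inl rfl)).1 q1⟩
      · exact ⟨-1, Or.inr rfl, (q2 (-1) (Or.inr rfl)).1 q1⟩
    choose u hu using hq3
    have n1 := mem_vec hq.1.1
    have n2 := mem_vec hq.1.2
    have n3 := hq.2
    rw [dot3] at n1 n2 n3
    -- the norm of v - σ w
    have e3 : 9 * (u 0 * u 0 + u 1 * u 1 + u 2 * u 2) = 3 * (pr D1 : ℤ) - 2 * (σ * b) +
        σ * σ * (3 * (pr D2 : ℤ)) := by
      rw [← n1, ← n2, ← n3]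
      linear_combination (-(3 * u 0) - (q.1 0 - σ * q.2 0)) * hu 0 +
        (-(3 * u 1) - (q.1 1 - σ * q.2 1)) * hu 1 + (-(3 * u 2) - (q.1 2 - σ * q.2 2)) * hu 2
    obtain ⟨z, hz⟩ : ∃ z, u 0 * u 0 + u 1 * u 1 + u 2 * u 2 = z := ⟨_, rfl⟩
    rw [hz] at e3
    rcases hσ with rfl | rfl <;> omega
  have k1 : ∑ q ∈ (vec (3 * (pr D1 : ℤ)) ×ˢ vec (3 * (pr D2 : ℤ))).filter
      (fun q => q.1 ⬝ᵥ q.2 = b), chv q.1 * chv q.2 = 0 := by
    by_cases h9 : (9 : ℤ) ∣ b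
    · rw [sum_sign _ (fun q => chv q.1 * chv q.2) (fun q hq => (hsg q hq).1)]
      have e : ∀ σ : ℤ, (σ = 1 ∨ σ = -1) →
          (((vec (3 * (pr D1 : ℤ)) ×ˢ vec (3 * (pr D2 : ℤ))).filter
          (fun q => q.1 ⬝ᵥ q.2 = b)).filter fun q => chv q.1 * chv q.2 = σ) =
          (vec (3 * (pr D1 : ℤ)) ×ˢ vec (3 * (pr D2 : ℤ))).filter fun q => q.1 ⬝ᵥ q.2 = b ∧
            (∀ i, (3 : ℤ) ∣ q.1 i - σ * q.2 i) ∧ True := by
        intro σ hσ
        rw [← filter_filter]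
        refine filter_congr fun q hq => ?_
        rw [(hsg q hq).2 σ hσ, and_true]
      rw [e 1 (Or.inl rfl), e (-1) (Or.inr rfl)]
      have c1 := (counts h D1 D2 g1 g2 b hb4 h9 h12' hb 1 (Or.inl rfl)).1
      have c2 := (counts h D1 D2 g1 g2 b hb4 h9 h12' hb (-1) (Or.inr rfl)).1
      rw [sub_eq_zero]
      convert c1.trans c2.symm using 3
    · exact Finset.sum_eq_zero fun q hq => absurd (hn9 q hq) h9
  have k2 : ∑ q ∈ (vec (3 * (pr D1 : ℤ)) ×ˢ vec (3 * (pr D2 : ℤ))).filter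
      (fun q => q.1 ⬝ᵥ q.2 = b ∧ ∀ i, be D2 * (q.1 i : ZMod 7) = be D1 * (q.2 i : ZMod 7)),
      chv q.1 * chv q.2 = 0 := by
    have hsub : ∀ q ∈ (vec (3 * (pr D1 : ℤ)) ×ˢ vec (3 * (pr D2 : ℤ))).filter
      (fun q => q.1 ⬝ᵥ q.2 = b ∧ ∀ i, be D2 * (q.1 i : ZMod 7) = be D1 * (q.2 i : ZMod 7)),
      q ∈ (vec (3 * (pr D1 : ℤ)) ×ˢ vec (3 * (pr D2 : ℤ))).filter (fun q => q.1 ⬝ᵥ q.2 = b) := by
      intro q hq
      rw [mem_filter] at hq ⊢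
      exact ⟨hq.1, hq.2.1⟩
    by_cases h9 : (9 : ℤ) ∣ b
    · rw [sum_sign _ (fun q => chv q.1 * chv q.2) (fun q hq => (hsg q (hsub q hq)).1)]
      have e : ∀ σ : ℤ, (σ = 1 ∨ σ = -1) →
          (((vec (3 * (pr D1 : ℤ)) ×ˢ vec (3 * (pr D2 : ℤ))).filter
          (fun q => q.1 ⬝ᵥ q.2 = b ∧ ∀ i, be D2 * (q.1 i : ZMod 7) =
            be D1 * (q.2 i : ZMod 7))).filter fun q => chv q.1 * chv q.2 = σ) =
          (vec (3 * (pr D1 : ℤ)) ×ˢ vec (3 * (pr D2 : ℤ))).filter fun q => q.1 ⬝ᵥ q.2 = b ∧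
            (∀ i, (3 : ℤ) ∣ q.1 i - σ * q.2 i) ∧
            ∀ i, be D2 * (q.1 i : ZMod 7) = be D1 * (q.2 i : ZMod 7) := by
        intro σ hσ
        ext q
        constructor
        · intro hq
          rw [mem_filter] at hq
          have hq1 := hsub q hq.1
          have hq2 := ((hsg q hq1).2 σ hσ).1 hq.2
          have hq3 := (mem_filter.1 hq.1)
          rw [mem_filter]
          exact ⟨hq3.1, hq3.2.1, hq2, hq3.2.2⟩
        · intro hq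
          rw [mem_filter] at hq
          rw [mem_filter, mem_filter]
          refine ⟨⟨hq.1, hq.2.1, hq.2.2.2⟩, ?_⟩
          exact ((hsg q (by rw [mem_filter]; exact ⟨hq.1, hq.2.1⟩)).2 σ hσ).2 hq.2.2.1
      rw [e 1 (Or.inl rfl), e (-1) (Or.inr rfl)]
      have c1 := (counts h D1 D2 g1 g2 b hb4 h9 h12' hb 1 (Or.inl rfl)).2
      have c2 := (counts h D1 D2 g1 g2 b hb4 h9 h12' hb (-1) (Or.inr rfl)).2
      rw [sub_eq_zero]
      convert c1.trans c2.symm using 3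
    · exact Finset.sum_eq_zero fun q hq => absurd (hn9 q (hsub q hq)) h9
  rw [k1, k2] at key
  have : ∑ q ∈ (vec (3 * (pr D1 : ℤ)) ×ˢ vec (3 * (pr D2 : ℤ))).filter (fun q => q.1 ⬝ᵥ q.2 = b ∧
        ∃ n : Fin 3 → ZMod 7, n ≠ 0 ∧ Ln n (be D1) q.1 ∧ Ln n (be D2) q.2), chv q.1 * chv q.2 = 0 := by
    linarith
  exact this

end Pool.Agent.Z864
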