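import Pool.Agent.Z700.Defs3
import Pool.Agent.Z700.BIL2B
import Pool.Agent.Z994.BIL2A

/-!
# Z701: lemmas on the general family, and the coincidences modulo 7
-/

set_option autoImplicit false

namespace Pool.Agent.Z864

open Finset Matrix
open Pool.Agent.Z700 (V3 vec cp cp7 hh fac pr chi3 chv Ln S_PC)
open Pool.Agent.Z701
open Pool.Agent.Z994 (dot3 Co L count7 co_dot neg_vec ln_neg sign_of)

/-! ### the family -/

theorem pr_insert (D : Finset ℕ) (p : ℕ) (hp : p ∉ D) : pr (insert p D) = p * pr D :=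
  Pool.Agent.Z700.BIL2B.pr_insert D p hp

theorem inr_insert (s : Finset ℕ) (p : ℕ) (hp : p ∉ s) :
    (inr (insert p s)).card = (inr s).card + if p % 8 = 5 then 1 else 0 := by
  unfold inr
  rw [Finset.filter_insert]
  split_ifs with h
  · rw [Finset.card_insert_of_notMem (fun h' => hp (Finset.mem_filter.1 h').1)]
  · simp

theorem prime_of {p : ℕ} (h : Sp p ∨ Nr p) : p.Prime := by
  rcases h with h | h <;> exact h.1

theorem pr_sq (D : Finset ℕ) (h : ∀ p ∈ D, Sp p ∨ Nr p) : Squarefree (pr D) := by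
  induction D using Finset.induction_on with
  | empty => exact squarefree_one
  | insert p s hp ih =>
    have hpp : p.Prime := prime_of (h p (Finset.mem_insert_self p s))
    rw [pr_insert s p hp, Nat.squarefree_mul]
    · exact ⟨hpp.squarefree, ih (fun q hq => h q (Finset.mem_insert_of_mem hq))⟩
    · unfold Pool.Agent.Z700.pr
      refine Nat.Coprime.prod_right fun q hq => ?_
      rw [Nat.coprime_primes hpp (prime_of (h q (Finset.mem_insert_of_mem hq)))]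
      rintro rfl
      exact hp hq

theorem pr_pos (D : Finset ℕ) (h : ∀ p ∈ D, Sp p ∨ Nr p) : 0 < pr D :=
  Nat.pos_of_ne_zero (pr_sq D h).ne_zero

theorem pr_mod8' (D : Finset ℕ) (h : ∀ p ∈ D, Sp p ∨ Nr p) :
    pr D % 8 = if Even (inr D).card then 1 else 5 := by
  induction D using Finset.induction_on with
  | empty => rfl
  | insert p s hp ih =>
    have ih' := ih (fun q hq => h q (Finset.mem_insert_of_mem hq))
    rw [pr_insert s p hp, inr_insert s p hp, Nat.mul_mod, ih']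
    rcases h p (Finset.mem_insert_self p s) with hh | hh
    · have e : (inr s).card + (if p % 8 = 5 then 1 else 0) = (inr s).card := by
        rw [hh.2.1]
        rfl
      rw [e, hh.2.1]
      split_ifs <;> rfl
    · rw [hh.2.1]
      simp only [if_true]
      by_cases he : Even (inr s).card
      · rw [if_pos he, if_neg (by rw [Nat.even_add_one]; exact fun h => h he)]
      · rw [if_neg he, if_pos (by rw [Nat.even_add_one]; exact he)]

theorem pr_mod8 (D : Finset ℕ) (h : Gd D) : pr D % 8 = 1 := by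
  rw [pr_mod8' D h.1, if_pos h.2]

theorem not3 {p : ℕ} (h : Sp p ∨ Nr p) : ¬ 3 ∣ p := by
  intro h3
  have hp := prime_of h
  have : p = 3 := ((Nat.prime_dvd_prime_iff_eq Nat.prime_three hp).1 h3).symm
  rcases h with h | h
  · have := h.2.1
    omega
  · have := h.2.1
    omega

theorem pr_not3 (D : Finset ℕ) (h : ∀ p ∈ D, Sp p ∨ Nr p) : ¬ 3 ∣ pr D := by
  intro h3
  unfold Pool.Agent.Z700.pr at h3
  rw [Prime.dvd_finsetProd_iff Nat.prime_three.prime] at h3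
  obtain ⟨p, hp, h3⟩ := h3
  exact not3 (h p hp) h3

theorem fact7 : Fact (Nat.Prime 7) := ⟨by norm_num⟩

theorem sq7_sq {p : ℕ} (h : Sp p ∨ Nr p) :
    (p : ZMod 7) = (if p % 8 = 5 then 3 else 1) * sq7 p ^ 2 := by
  have h1 : (p : ZMod 7) = ((p % 7 : ℕ) : ZMod 7) := (ZMod.natCast_mod p 7).symm
  rw [h1]
  unfold sq7
  rcases h with ⟨-, h8, h7⟩ | ⟨-, h8, h7⟩ <;> rw [h8] <;> rcases h7 with h7 | h7 | h7 <;> rw [h7] <;>
    decide

theorem sq7_ne (p : ℕ) : sq7 p ≠ 0 := by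
  unfold sq7
  split_ifs <;> decide

theorem pr7 (D : Finset ℕ) (h : ∀ p ∈ D, Sp p ∨ Nr p) :
    (pr D : ZMod 7) = 3 ^ (inr D).card * (∏ p ∈ D, sq7 p) ^ 2 := by
  induction D using Finset.induction_on with
  | empty => simp [Pool.Agent.Z700.pr, inr]
  | insert p s hp ih =>
    rw [pr_insert s p hp, inr_insert s p hp, Nat.cast_mul,
      ih (fun q hq => h q (Finset.mem_insert_of_mem hq)), Finset.prod_insert hp,
      sq7_sq (h p (Finset.mem_insert_self p s))]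
    split_ifs
    · ring
    · ring

theorem be_sq (D : Finset ℕ) (h : Gd D) : be D ^ 2 = -((3 * pr D : ℕ) : ZMod 7) := by
  obtain ⟨h1, h2⟩ := h
  push_cast
  rw [pr7 D h1]
  unfold be
  obtain ⟨k, hk⟩ := h2
  have e : (inr D).card / 2 = k := by omega
  rw [e, hk]
  have h4 : (4 : ZMod 7) = -3 := by decide
  have : (2 * 3 ^ k * ∏ p ∈ D, sq7 p) ^ 2 = 4 * (3 ^ (k + k) * (∏ p ∈ D, sq7 p) ^ 2) := by
    rw [pow_add]
    ring
  rw [this, h4]
  ring

theorem be_ne (D : Finset ℕ) : be D ≠ 0 := by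
  have := fact7
  unfold be
  refine mul_ne_zero (mul_ne_zero Pool.Agent.Z700.BIL2B.two_ne
    (pow_ne_zero _ Pool.Agent.Z700.BIL2B.three_ne)) ?_
  exact prod_ne_zero_iff.mpr fun p _ => sq7_ne p

theorem sq3pr (D : Finset ℕ) (h : ∀ p ∈ D, Sp p ∨ Nr p) : Squarefree (3 * pr D) := by
  rw [Nat.squarefree_mul]
  · exact ⟨Nat.prime_three.squarefree, pr_sq D h⟩
  · rw [Nat.Prime.coprime_iff_not_dvd Nat.prime_three]
    exact pr_not3 D h

theorem n_not7 (D : Finset ℕ) (h : Gd D) : ¬ 7 ∣ 3 * pr D := by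
  have := fact7
  intro h7
  rw [← ZMod.natCast_eq_zero_iff] at h7
  have h1 := be_sq D h
  rw [h7, neg_zero] at h1
  exact be_ne D (pow_eq_zero_iff two_ne_zero |>.1 h1)

/-! ### coincidences modulo 7 -/

theorem chi3_negg (x : ℤ) : chi3 (-x) = -chi3 x := by
  unfold chi3
  rcases (by omega : x % 3 = 0 ∨ x % 3 = 1 ∨ x % 3 = 2) with h | h | h
  · rw [if_neg (by omega), if_neg (by omega), if_neg (by omega), if_neg (by omega)]; rfl
  · rw [if_neg (by omega), if_pos (by omega), if_pos (by omega)]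
  · rw [if_pos (by omega), if_neg (by omega), if_pos (by omega)]; rfl

theorem chv_neg (v : V3) : chv (-v) = -chv v := by
  unfold chv
  simp only [Pi.neg_apply, chi3_negg]
  ring

theorem dot7 {b : ℤ} {q : V3 × V3} (hq : q.1 ⬝ᵥ q.2 = b) :
    (q.1 0 : ZMod 7) * q.2 0 + (q.1 1 : ZMod 7) * q.2 1 + (q.1 2 : ZMod 7) * q.2 2 = (b : ZMod 7) := by
  rw [← hq, dot3]
  push_cast
  ring

theorem mem_vec {n : ℤ} {v : V3} (h : v ∈ vec n) : v ⬝ᵥ v = n := Pool.Agent.Z994.mem_vec h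

open Classical in
/-- the sum over the pairs with a common line -/
theorem core {N1 N2 b : ℤ} {β1 β2 : ZMod 7} (h1 : β1 ≠ 0) (h2 : β2 ≠ 0)
    (hN1 : β1 ^ 2 = -(N1 : ZMod 7)) (hN2 : β2 ^ 2 = -(N2 : ZMod 7))
    (hb : (b : ZMod 7) = -(β1 * β2)) (f : V3 × V3 → ℤ) (hf : ∀ v w, f (-v, -w) = f (v, w)) :
    2 * ∑ q ∈ (vec N1 ×ˢ vec N2).filter (fun q => q.1 ⬝ᵥ q.2 = b ∧
        ∃ n : Fin 3 → ZMod 7, n ≠ 0 ∧ Ln n β1 q.1 ∧ Ln n β2 q.2), f q =
      ∑ q ∈ (vec N1 ×ˢ vec N2).filter (fun q => q.1 ⬝ᵥ q.2 = b), f q +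
      ∑ q ∈ (vec N1 ×ˢ vec N2).filter (fun q => q.1 ⬝ᵥ q.2 = b ∧
        ∀ i, β2 * (q.1 i : ZMod 7) = β1 * (q.2 i : ZMod 7)), f q := by
  let Cq : ZMod 7 → ZMod 7 → V3 × V3 → Prop := fun a c q =>
    Co (fun i => (q.1 i : ZMod 7)) (fun i => (q.2 i : ZMod 7)) a c
  have e0 : ∑ q ∈ (vec N1 ×ˢ vec N2).filter (fun q => q.1 ⬝ᵥ q.2 = b ∧
        ∃ n : Fin 3 → ZMod 7, n ≠ 0 ∧ Ln n β1 q.1 ∧ Ln n β2 q.2), f q =
      ∑ q ∈ (vec N1 ×ˢ vec N2).filter (fun q => q.1 ⬝ᵥ q.2 = b ∧ Cq β1 β2 q), f q := by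
    refine sum_congr ?_ fun _ _ => rfl
    exact filter_congr fun q _ => Iff.rfl
  have hmap : ∀ (a c : ZMod 7) (q : V3 × V3), Cq a c q → Cq (-a) (-c) (-q.1, -q.2) := by
    rintro a c q ⟨n, hn, l1, l2⟩
    refine ⟨n, hn, ?_, ?_⟩
    · have : Ln n (-a) (-q.1) := by
        rw [ln_neg, neg_neg]
        exact l1
      exact this
    · have : Ln n (-c) (-q.2) := by
        rw [ln_neg, neg_neg]
        exact l2
      exact this
  have hinv : ∑ q ∈ (vec N1 ×ˢ vec N2).filter (fun q => q.1 ⬝ᵥ q.2 = b ∧ Cq β1 β2 q), f q =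
      ∑ q ∈ (vec N1 ×ˢ vec N2).filter (fun q => q.1 ⬝ᵥ q.2 = b ∧ Cq (-β1) (-β2) q), f q := by
    refine sum_bij' (fun q _ => (-q.1, -q.2)) (fun q _ => (-q.1, -q.2)) ?_ ?_ ?_ ?_ ?_
    · intro q hq
      rw [mem_filter, mem_product] at hq ⊢
      refine ⟨⟨neg_vec hq.1.1, neg_vec hq.1.2⟩, ?_, hmap _ _ q hq.2.2⟩
      show -q.1 ⬝ᵥ -q.2 = b
      rw [_root_.neg_dotProduct, _root_.dotProduct_neg, neg_neg]
      exact hq.2.1
    · intro q hq
      rw [mem_filter, mem_product] at hq ⊢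
      refine ⟨⟨neg_vec hq.1.1, neg_vec hq.1.2⟩, ?_, ?_⟩
      · show -q.1 ⬝ᵥ -q.2 = b
        rw [_root_.neg_dotProduct, _root_.dotProduct_neg, neg_neg]
        exact hq.2.1
      · have := hmap _ _ q hq.2.2
        rw [neg_neg, neg_neg] at this
        exact this
    · intro q _
      simp
    · intro q _
      simp
    · intro q _
      exact (hf q.1 q.2).symm
  rw [e0, two_mul]
  nth_rewrite 2 [hinv]
  simp only [← filter_filter]
  rw [sum_filter (fun q => Cq β1 β2 q), sum_filter (fun q => Cq (-β1) (-β2) q),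
    sum_filter (fun q : V3 × V3 => ∀ i, β2 * (q.1 i : ZMod 7) = β1 * (q.2 i : ZMod 7)),
    ← sum_add_distrib, ← sum_add_distrib]
  refine sum_congr rfl fun q hq => ?_
  rw [mem_filter, mem_product] at hq
  have n1 : (q.1 0 : ZMod 7) * q.1 0 + (q.1 1 : ZMod 7) * q.1 1 + (q.1 2 : ZMod 7) * q.1 2 =
      -β1 ^ 2 := by
    have := dot7 (q := (q.1, q.1)) (mem_vec hq.1.1)
    rw [this, hN1, neg_neg]
  have n2 : (q.2 0 : ZMod 7) * q.2 0 + (q.2 1 : ZMod 7) * q.2 1 + (q.2 2 : ZMod 7) * q.2 2 =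
      -β2 ^ 2 := by
    have := dot7 (q := (q.2, q.2)) (mem_vec hq.1.2)
    rw [this, hN2, neg_neg]
  have := count7 (v := fun i => (q.1 i : ZMod 7)) (w := fun i => (q.2 i : ZMod 7)) h1 h2
    n1 n2 ((dot7 hq.2).trans hb)
  have k1 : (if Cq β1 β2 q then f q else 0) = ((if Cq β1 β2 q then 1 else 0 : ℕ) : ℤ) * f q := by
    split_ifs <;> simp
  have k2 : (if Cq (-β1) (-β2) q then f q else 0) =
      ((if Cq (-β1) (-β2) q then 1 else 0 : ℕ) : ℤ) * f q := by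
    split_ifs <;> simp
  have k3 : (if ∀ i, β2 * (q.1 i : ZMod 7) = β1 * (q.2 i : ZMod 7) then f q else 0) =
      ((if ∀ i, β2 * (q.1 i : ZMod 7) = β1 * (q.2 i : ZMod 7) then 1 else 0 : ℕ) : ℤ) * f q := by
    split_ifs <;> simp
  rw [k1, k2, k3, ← add_mul, ← Nat.cast_add]
  have k4 : ((if Cq β1 β2 q then 1 else 0 : ℕ) + (if Cq (-β1) (-β2) q then 1 else 0)) =
      1 + if ∀ i, β2 * (q.1 i : ZMod 7) = β1 * (q.2 i : ZMod 7) then 1 else 0 := by
    convert this using 2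
  rw [k4]
  push_cast
  ring

open Classical in
theorem core0 {N1 N2 b : ℤ} {β1 β2 : ZMod 7} (h1 : β1 ≠ 0) (hb : ¬ (b : ZMod 7) = -(β1 * β2)) :
    (vec N1 ×ˢ vec N2).filter (fun q => q.1 ⬝ᵥ q.2 = b ∧
        ∃ n : Fin 3 → ZMod 7, n ≠ 0 ∧ Ln n β1 q.1 ∧ Ln n β2 q.2) = ∅ := by
  rw [filter_eq_empty_iff]
  rintro q - ⟨hq, hC⟩
  apply hb
  rw [← dot7 hq]
  exact co_dot (v := fun i => (q.1 i : ZMod 7)) (w := fun i => (q.2 i : ZMod 7)) h1 hC

end Pool.Agent.Z864
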